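import Pool.Agent.Y862.SQ.Stm
import Pool.Agent.Y672.GM.Equi

/-!
Project SQ (helper862), job BR2: a sieve of Brun type for periodic weights close to one.
-/

set_option autoImplicit false

namespace Pool.Agent.Y756.SQ

open Finset Pool.Agent.Y862.SQ

/-- the terms of large order -/
lemma tail_le (P : Finset ℕ) (x : ℕ → ℝ) (hx : ∀ p ∈ P, 0 ≤ x p) (N : ℕ) :
    ∑ S ∈ P.powerset.filter (fun S => ¬ S.card < N), ∏ p ∈ S, x p ≤
      Real.exp (3 * ∑ p ∈ P, x p - N) := by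
  have he : Real.exp 1 ≤ 3 := by linarith [Real.exp_one_lt_d9]
  have he0 : 0 < Real.exp 1 := Real.exp_pos 1
  have h1 : (∑ S ∈ P.powerset.filter (fun S => ¬ S.card < N), ∏ p ∈ S, x p) * Real.exp N ≤
      ∑ S ∈ P.powerset.filter (fun S => ¬ S.card < N), ∏ p ∈ S, (Real.exp 1 * x p) := by
    rw [sum_mul]
    refine sum_le_sum fun S hS => ?_
    rw [mem_filter, mem_powerset] at hS
    have h0 : 0 ≤ ∏ p ∈ S, x p := prod_nonneg fun p hp => hx p (hS.1 hp)
    rw [prod_mul_distrib, prod_const, ← Real.exp_nat_mul, mul_one, mul_comm]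
    have : (N : ℝ) ≤ S.card := by exact_mod_cast not_lt.1 hS.2
    exact mul_le_mul_of_nonneg_right (Real.exp_le_exp.2 this) h0
  have h2 : ∑ S ∈ P.powerset.filter (fun S => ¬ S.card < N), ∏ p ∈ S, (Real.exp 1 * x p) ≤
      ∏ p ∈ P, (1 + Real.exp 1 * x p) := by
    rw [prod_one_add]
    refine sum_le_sum_of_subset_of_nonneg (filter_subset _ _) ?_
    intro S hS _
    refine prod_nonneg fun p hp => ?_
    exact mul_nonneg he0.le (hx p (mem_powerset.1 hS hp))
  have h3 : ∏ p ∈ P, (1 + Real.exp 1 * x p) ≤ Real.exp (3 * ∑ p ∈ P, x p) := by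
    rw [mul_sum, Real.exp_sum]
    refine prod_le_prod (fun p hp => ?_) fun p hp => ?_
    · have := mul_nonneg he0.le (hx p hp)
      linarith
    · have h4 := Real.add_one_le_exp (Real.exp 1 * x p)
      have h5 : Real.exp 1 * x p ≤ 3 * x p := mul_le_mul_of_nonneg_right he (hx p hp)
      have h6 := Real.exp_le_exp.2 h5
      linarith
  rw [Real.exp_sub, le_div_iff₀ (Real.exp_pos _)]
  linarith

lemma mean_sq {p : ℕ} (hp : 0 < p) (f : ℕ → ℝ) (hf : ∀ n, f (n + p) = f n) :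
    (∑ n ∈ range (p ^ 2), f n) / (p : ℝ) ^ 2 = (∑ n ∈ range p, f n) / p := by
  have h1 := Pool.Agent.Y672.GM.sum_mul_add p f hf p 0 0
  simp only [add_zero, zero_add, range_zero, sum_empty] at h1
  have hp0 : (p : ℝ) ≠ 0 := by exact_mod_cast hp.ne'
  rw [pow_two, h1]
  field_simp

lemma card_small (P : Finset ℕ) (N : ℕ) {z : ℝ} (hz1 : 1 ≤ z) (hz : (P.card : ℝ) ≤ z) :
    ((P.powerset.filter (fun S => S.card < N)).card : ℝ) ≤ N * z ^ N := by
  have h1 : P.powerset.filter (fun S => S.card < N) ⊆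
      (range N).biUnion (fun j => powersetCard j P) := by
    intro S hS
    rw [mem_filter, mem_powerset] at hS
    rw [mem_biUnion]
    exact ⟨S.card, mem_range.2 hS.2, mem_powersetCard.2 ⟨hS.1, rfl⟩⟩
  have h2 : ((P.powerset.filter (fun S => S.card < N)).card : ℝ) ≤
      ∑ j ∈ range N, ((powersetCard j P).card : ℝ) := by
    exact_mod_cast (card_le_card h1).trans card_biUnion_le
  refine h2.trans ?_
  calc _ ≤ ∑ j ∈ range N, z ^ N := by
        refine sum_le_sum fun j hj => ?_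
        rw [mem_range] at hj
        rw [card_powersetCard]
        have h3 : ((P.card.choose j : ℕ) : ℝ) ≤ (P.card : ℝ) ^ j := by
          exact_mod_cast Nat.choose_le_pow _ _
        calc _ ≤ (P.card : ℝ) ^ j := h3
          _ ≤ z ^ j := by gcongr
          _ ≤ z ^ N := pow_le_pow_right₀ hz1 hj.le
    _ = _ := by rw [sum_const, card_range, nsmul_eq_mul]

theorem t_BR2 (hM : S_MERT) : S_BR2 := by
  classical
  obtain ⟨C, hC⟩ := hM
  have e1 : ∀ᶠ x : ℝ in Filter.atTop, max 1 C ≤ Real.log (Real.log x) :=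
    (Real.tendsto_log_atTop.comp Real.tendsto_log_atTop).eventually_ge_atTop _
  have e2 : ∀ᶠ x : ℝ in Filter.atTop, ‖Real.log x ^ (63 : ℝ)‖ ≤ 1 / 4 * ‖x ^ (1 / 2 : ℝ)‖ :=
    (isLittleO_log_rpow_rpow_atTop (s := 1 / 2) 63 (by norm_num)).bound (by norm_num)
  have e3 := (tendsto_natCast_atTop_atTop (R := ℝ)).eventually
    ((e1.and e2).and (Filter.eventually_ge_atTop (3 : ℝ)))
  obtain ⟨T0, hT0⟩ := Filter.eventually_atTop.1 e3
  refine ⟨T0, ?_⟩
  intro T hT P hP b hb1 hb2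
  obtain ⟨⟨hl, hpow⟩, hT3⟩ := hT0 T hT
  have hT1 : (1 : ℝ) ≤ T := by linarith
  have hTpos : (0 : ℝ) < T := by linarith
  have hT3' : 3 ≤ T := by exact_mod_cast hT3
  obtain ⟨l, hldef⟩ : ∃ l : ℝ, l = Real.log (Real.log T) := ⟨_, rfl⟩
  rw [← hldef] at hl
  have hl1 : 1 ≤ l := (le_max_left _ _).trans hl
  have hlC : C ≤ l := (le_max_right _ _).trans hl
  have hlogpos : 0 < Real.log T := Real.log_pos (by linarith)
  have hexpl : Real.exp l = Real.log T := by rw [hldef, Real.exp_log hlogpos]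
  have hlog2 : 2 ≤ Real.log T := by
    rw [← hexpl]
    have := Real.add_one_le_exp l
    linarith
  have hexpT : Real.exp (Real.log T) = T := Real.exp_log hTpos
  -- the threshold
  obtain ⟨z, hz⟩ : ∃ z : ℝ, z = z1 T := ⟨_, rfl⟩
  have hz' : z = Real.exp (Real.log T / (200 * l)) := by rw [hz, z1, hldef]
  have hz1 : 1 ≤ z := by
    rw [hz']
    exact Real.one_le_exp (by positivity)
  have hz0 : 0 < z := by linarith
  have hzT : z ≤ T := by
    rw [hz']
    conv_rhs => rw [← hexpT]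
    apply Real.exp_le_exp.2
    apply div_le_self hlogpos.le
    linarith
  have hPp : ∀ p ∈ P, p.Prime := fun p hp => (hP p hp).1
  have hPz : ∀ p ∈ P, (p : ℝ) ≤ z := fun p hp => by rw [hz]; exact (hP p hp).2
  have hp0 : ∀ p ∈ P, (0 : ℝ) < p := fun p hp => by exact_mod_cast (hPp p hp).pos
  have hPT : P ⊆ pr T := by
    intro p hp
    rw [pr, mem_filter, mem_Icc]
    have : (p : ℝ) ≤ T := (hPz p hp).trans hzT
    exact ⟨⟨(hPp p hp).one_lt.le, by exact_mod_cast this⟩, hPp p hp⟩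
  have hPcard : (P.card : ℝ) ≤ z := by
    have h1 : P ⊆ Icc 1 ⌊z⌋₊ := by
      intro p hp
      rw [mem_Icc]
      exact ⟨(hPp p hp).one_lt.le, Nat.le_floor (hPz p hp)⟩
    have h2 := card_le_card h1
    rw [Nat.card_Icc, Nat.add_sub_cancel] at h2
    calc (P.card : ℝ) ≤ (⌊z⌋₊ : ℕ) := by exact_mod_cast h2
      _ ≤ z := Nat.floor_le hz0.le
  -- the length
  obtain ⟨N, hN⟩ : ∃ N : ℕ, N = ⌈29 * l⌉₊ := ⟨_, rfl⟩
  have hNge : 29 * l ≤ N := by rw [hN]; exact Nat.le_ceil _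
  have hNle : (N : ℝ) ≤ 30 * l := by
    rw [hN]
    have := (Nat.ceil_lt_add_one (by positivity : (0 : ℝ) ≤ 29 * l)).le
    linarith
  -- the tail
  obtain ⟨R, hR⟩ : ∃ R : ℝ, R = ∑ S ∈ P.powerset.filter (fun S => ¬ S.card < N),
    ∏ p ∈ S, (4 / (p : ℝ)) := ⟨_, rfl⟩
  have hRle : R ≤ 1 / (4 * Real.log T) := by
    have h1 := tail_le P (fun p => 4 / (p : ℝ)) (fun p hp => by have := hp0 p hp; positivity) N
    rw [← hR] at h1
    refine h1.trans ?_
    have h2 : ∑ p ∈ P, 4 / (p : ℝ) ≤ 4 * (2 * l) := by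
      have h3 : ∑ p ∈ P, 4 / (p : ℝ) = 4 * ∑ p ∈ P, (1 : ℝ) / p := by
        rw [mul_sum]
        exact sum_congr rfl fun p _ => by ring
      have h4 : ∑ p ∈ P, (1 : ℝ) / p ≤ ∑ p ∈ pr T, (1 : ℝ) / p :=
        sum_le_sum_of_subset_of_nonneg hPT fun p _ _ => by positivity
      have h5 := hC T hT3'
      rw [abs_le, ← hldef] at h5
      rw [h3]
      linarith [h5.2]
    have h6 : Real.exp (3 * ∑ p ∈ P, 4 / (p : ℝ) - N) ≤ Real.exp (-(5 * l)) :=
      Real.exp_le_exp.2 (by linarith)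
    refine h6.trans ?_
    rw [Real.exp_neg, one_div]
    apply inv_anti₀ (by positivity)
    have h7 : Real.exp (5 * l) = Real.log T ^ 5 := by
      rw [← hexpl, ← Real.exp_nat_mul]
      norm_num
    rw [h7]
    calc 4 * Real.log T ≤ Real.log T ^ 4 * Real.log T := by
          have : (4 : ℝ) ≤ Real.log T ^ 4 := by
            calc (4 : ℝ) ≤ 2 ^ 4 := by norm_num
              _ ≤ Real.log T ^ 4 := by gcongr
          gcongr
      _ = _ := by ring
  have hR0 : 0 ≤ R := by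
    rw [hR]
    exact sum_nonneg fun S _ => prod_nonneg fun p _ => by positivity
  -- the means
  obtain ⟨M, hMd⟩ : ∃ M : ℕ → ℝ, M = fun p => (∑ n ∈ range p, b p n) / (p : ℝ) := ⟨_, rfl⟩
  have hMb : ∀ p ∈ P, |M p| ≤ 4 / p := by
    intro p hp
    have h0 := hp0 p hp
    simp only [hMd]
    rw [abs_div, abs_of_pos h0, div_le_div_iff_of_pos_right h0]
    refine (abs_sum_le_sum_abs _ _).trans ?_
    calc _ ≤ ∑ n ∈ range p, 4 / (p : ℝ) := sum_le_sum fun n _ => hb2 p hp n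
      _ = 4 := by
        rw [sum_const, card_range, nsmul_eq_mul]
        field_simp
  -- equidistribution
  obtain ⟨Er, hEr⟩ : ∃ Er : ℝ, Er = 2 * 2 ^ N * z ^ (2 * N) := ⟨_, rfl⟩
  have hEr0 : 0 ≤ Er := by rw [hEr]; positivity
  have heq : ∀ S : Finset ℕ, S ⊆ P → S.card < N →
      |∑ h ∈ Icc 1 T, ∏ p ∈ S, b p h - T * ∏ p ∈ S, M p| ≤ Er := by
    intro S hS hSN
    have h1 := Pool.Agent.Y672.GM.t_EQUI S (fun p hp => hPp p (hS hp)) b ?_ ?_ 0 T
    · have h2 : ∏ p ∈ S, ((∑ n ∈ range (p ^ 2), b p n) / (p : ℝ) ^ 2) = ∏ p ∈ S, M p := by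
        refine prod_congr rfl fun p hp => ?_
        rw [mean_sq (hPp p (hS hp)).pos (b p) (hb1 p (hS hp)), hMd]
      have h3 : Ioc 0 (0 + T) = Icc 1 T := by
        ext n
        simp only [mem_Ioc, mem_Icc]
        omega
      rw [h2, h3] at h1
      refine h1.trans ?_
      rw [hEr]
      have h4 : ∏ p ∈ S, (p : ℝ) ^ 2 ≤ z ^ (2 * N) := by
        calc ∏ p ∈ S, (p : ℝ) ^ 2 ≤ ∏ p ∈ S, z ^ 2 := by
              refine prod_le_prod (fun p _ => by positivity) fun p hp => ?_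
              have := hPz p (hS hp)
              gcongr
          _ = z ^ (2 * S.card) := by rw [prod_const, pow_mul]
          _ ≤ z ^ (2 * N) := pow_le_pow_right₀ hz1 (by omega)
      have h5 : (2 : ℝ) ^ S.card ≤ 2 ^ N := pow_le_pow_right₀ (by norm_num) hSN.le
      gcongr
    · intro p hp n
      have h2 : Function.Periodic (b p) p := hb1 p (hS hp)
      have h3 := h2.nat_mul p
      rw [pow_two]
      exact h3 n
    · intro p hp n
      have h2 : (2 : ℝ) ≤ p := by exact_mod_cast (hPp p (hS hp)).two_le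
      refine (hb2 p (hS hp) n).trans ?_
      rw [div_le_iff₀ (by linarith)]
      linarith
  -- decomposition
  obtain ⟨A, hA⟩ : ∃ A : Finset (Finset ℕ), A = P.powerset.filter (fun S => S.card < N) :=
    ⟨_, rfl⟩
  obtain ⟨B, hB⟩ : ∃ B : Finset (Finset ℕ), B = P.powerset.filter (fun S => ¬ S.card < N) :=
    ⟨_, rfl⟩
  have hdec : ∀ x : ℕ → ℝ, ∏ p ∈ P, (1 + x p) = ∑ S ∈ A, ∏ p ∈ S, x p + ∑ S ∈ B, ∏ p ∈ S, x p := by
    intro x
    rw [prod_one_add, hA, hB, sum_filter_add_sum_filter_not]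
  have hBsum : ∀ x : ℕ → ℝ, (∀ p ∈ P, |x p| ≤ 4 / p) → |∑ S ∈ B, ∏ p ∈ S, x p| ≤ R := by
    intro x hx
    refine (abs_sum_le_sum_abs _ _).trans ?_
    rw [hR, ← hB]
    refine sum_le_sum fun S hS => ?_
    rw [hB, mem_filter, mem_powerset] at hS
    rw [abs_prod]
    exact prod_le_prod (fun p _ => abs_nonneg _) fun p hp => hx p (hS.1 hp)
  have hAsum : |∑ S ∈ A, (∑ h ∈ Icc 1 T, ∏ p ∈ S, b p h - T * ∏ p ∈ S, M p)| ≤
      N * z ^ N * Er := by
    refine (abs_sum_le_sum_abs _ _).trans ?_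
    calc _ ≤ ∑ S ∈ A, Er := by
          refine sum_le_sum fun S hS => ?_
          rw [hA, mem_filter, mem_powerset] at hS
          exact heq S hS.1 hS.2
      _ = A.card * Er := by rw [sum_const, nsmul_eq_mul]
      _ ≤ _ := by
          have := card_small P N hz1 hPcard
          rw [← hA] at this
          exact mul_le_mul_of_nonneg_right this hEr0
  have hmain : |∑ h ∈ Icc 1 T, ∏ p ∈ P, (1 + b p h) - T * ∏ p ∈ P, (1 + M p)| ≤
      N * z ^ N * Er + 2 * (T * R) := by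
    have e4 : ∑ h ∈ Icc 1 T, ∏ p ∈ P, (1 + b p h) - T * ∏ p ∈ P, (1 + M p) =
        ∑ S ∈ A, (∑ h ∈ Icc 1 T, ∏ p ∈ S, b p h - T * ∏ p ∈ S, M p) +
        ∑ h ∈ Icc 1 T, ∑ S ∈ B, ∏ p ∈ S, b p h - T * ∑ S ∈ B, ∏ p ∈ S, M p := by
      rw [sum_congr rfl fun h _ => hdec fun p => b p h, hdec M, sum_add_distrib, sum_comm,
        sum_sub_distrib, ← mul_sum]
      ring
    rw [e4]
    have h1 : |∑ h ∈ Icc 1 T, ∑ S ∈ B, ∏ p ∈ S, b p h| ≤ T * R := by
      refine (abs_sum_le_sum_abs _ _).trans ?_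
      calc _ ≤ ∑ h ∈ Icc 1 T, R := sum_le_sum fun h _ => hBsum _ fun p hp => hb2 p hp h
        _ = T * R := by rw [sum_const, Nat.card_Icc, Nat.add_sub_cancel, nsmul_eq_mul]
    have h2 : |(T : ℝ) * ∑ S ∈ B, ∏ p ∈ S, M p| ≤ T * R := by
      rw [abs_mul, abs_of_pos hTpos]
      exact mul_le_mul_of_nonneg_left (hBsum M hMb) hTpos.le
    have h3 := abs_sub (∑ S ∈ A, (∑ h ∈ Icc 1 T, ∏ p ∈ S, b p h - T * ∏ p ∈ S, M p) +
        ∑ h ∈ Icc 1 T, ∑ S ∈ B, ∏ p ∈ S, b p h) (T * ∑ S ∈ B, ∏ p ∈ S, M p)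
    have h4 := abs_add_le (∑ S ∈ A, (∑ h ∈ Icc 1 T, ∏ p ∈ S, b p h - T * ∏ p ∈ S, M p))
        (∑ h ∈ Icc 1 T, ∑ S ∈ B, ∏ p ∈ S, b p h)
    linarith
  -- the error
  have hfin : N * z ^ N * Er ≤ T * (1 / (2 * Real.log T)) := by
    have h1 : (N : ℝ) ≤ 2 ^ N := by exact_mod_cast (Nat.lt_two_pow_self (n := N)).le
    have h2 : N * z ^ N * Er ≤ 2 * 4 ^ N * z ^ (3 * N) := by
      rw [hEr]
      calc N * z ^ N * (2 * 2 ^ N * z ^ (2 * N)) ≤
            2 ^ N * z ^ N * (2 * 2 ^ N * z ^ (2 * N)) := by gcongr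
        _ = 2 * (2 * 2) ^ N * z ^ (3 * N) := by rw [mul_pow]; ring
        _ = _ := by norm_num
    refine h2.trans ?_
    have h3 : (4 : ℝ) ^ N ≤ Real.log T ^ (62 : ℝ) := by
      have h4 : (4 : ℝ) ≤ Real.exp 2 := by
        have h5 : Real.exp 2 = Real.exp 1 * Real.exp 1 := by rw [← Real.exp_add]; norm_num
        have h6 : (2 : ℝ) ≤ Real.exp 1 := by linarith [Real.exp_one_gt_d9]
        rw [h5]
        nlinarith
      calc (4 : ℝ) ^ N ≤ Real.exp 2 ^ N := by gcongr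
        _ = Real.exp (N * 2) := by rw [← Real.exp_nat_mul]
        _ ≤ Real.exp (l * 62) := Real.exp_le_exp.2 (by linarith)
        _ = Real.log T ^ (62 : ℝ) := by rw [Real.exp_mul, hexpl]
    have h4 : z ^ (3 * N) ≤ (T : ℝ) ^ (1 / 2 : ℝ) := by
      rw [hz', ← Real.exp_nat_mul]
      calc _ ≤ Real.exp (Real.log T * (1 / 2)) := by
            apply Real.exp_le_exp.2
            push_cast
            rw [mul_div_assoc', div_le_iff₀ (by positivity)]
            have h5 : 3 * (N : ℝ) ≤ 100 * l := by linarith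
            calc 3 * (N : ℝ) * Real.log T ≤ 100 * l * Real.log T := by gcongr
              _ = _ := by ring
        _ = _ := by rw [Real.exp_mul, hexpT]
    have h5 : 4 * Real.log T ^ (63 : ℝ) ≤ (T : ℝ) ^ (1 / 2 : ℝ) := by
      have h6 : 0 ≤ Real.log T ^ (63 : ℝ) := by positivity
      have h7 : 0 ≤ (T : ℝ) ^ (1 / 2 : ℝ) := by positivity
      rw [Real.norm_of_nonneg h6, Real.norm_of_nonneg h7] at hpow
      linarith
    rw [mul_one_div, le_div_iff₀ (by positivity)]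
    calc 2 * 4 ^ N * z ^ (3 * N) * (2 * Real.log T) ≤
          2 * Real.log T ^ (62 : ℝ) * (T : ℝ) ^ (1 / 2 : ℝ) * (2 * Real.log T) := by gcongr
      _ = 4 * (Real.log T ^ (62 : ℝ) * Real.log T) * (T : ℝ) ^ (1 / 2 : ℝ) := by ring
      _ = 4 * Real.log T ^ (63 : ℝ) * (T : ℝ) ^ (1 / 2 : ℝ) := by
          have h8 : Real.log T ^ (63 : ℝ) = Real.log T ^ (62 : ℝ) * Real.log T := by
            rw [show (63 : ℝ) = 62 + 1 by norm_num, Real.rpow_add hlogpos, Real.rpow_one]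
          rw [h8]
      _ ≤ (T : ℝ) ^ (1 / 2 : ℝ) * (T : ℝ) ^ (1 / 2 : ℝ) := by gcongr
      _ = T := by
          rw [← Real.rpow_add hTpos]
          norm_num
  have hfin2 : 2 * (T * R) ≤ T * (1 / (2 * Real.log T)) := by
    have h1 : 2 * (1 / (4 * Real.log T)) = 1 / (2 * Real.log T) := by
      field_simp
      norm_num
    calc 2 * (T * R) = T * (2 * R) := by ring
      _ ≤ T * (2 * (1 / (4 * Real.log T))) := by gcongr
      _ = _ := by rw [h1]
  have hend : (T : ℝ) * (1 / (2 * Real.log T)) + T * (1 / (2 * Real.log T)) = T / Real.log T := by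
    field_simp
    norm_num
  rw [hMd] at hmain
  linarith

end Pool.Agent.Y756.SQ
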